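import Pool.Agent.X111.LP.Lat

set_option autoImplicit false
set_option linter.unusedSectionVars false

/-! Peaks of zeta near the critical line that dominate their neighbours. -/

namespace Pool.Agent.X111.LP

open MeasureTheory ProbabilityTheory Filter Topology
open Pool.Agent.Y755
open Pool.Agent.Y753.NL
open Pool.Agent.Y753.SHR
open Pool.Agent.H306R2 (aF aF_pos)
open Pool.Agent.X111.JD (zc zc_norm zc_cont)
open Pool.Agent.X111.FL
open Pool.Agent.X111.FZ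

/-- the integers -/
def Sz : Set ℝ := Set.range fun j : ℤ => (j : ℝ)

/-- the asymptotics of homogeneous functions on the complement of the sets `E T` -/
def GD (k : ℝ) (δ : ℝ → ℝ) (E : ℝ → Set ℝ) : Prop := ∀ (n : ℕ) (a : Fin n → ℝ), (∀ j, a j ∈ Sz) → ∀ F : (Fin n → ℂ) → ℝ, Continuous F →
  (∀ (c : ℂ) (v : Fin n → ℂ), F (fun j => c * v j) = ‖c‖ ^ (2 * k) * F v) →
  Tendsto (fun T => (2 * δ T) ^ (k ^ 2) / T * ∫ t in Set.Icc 0 T \ E T, F (fun j => zc (δ T) (a j) t)) atTop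
    (𝓝 (aF k * ∫ ω, F (fun j => fi k ω (Complex.I * a j)) ∂PG))

theorem exE {k : ℝ} (hk : 0 < k) {δ : ℝ → ℝ} (hδ : Tendsto δ atTop (𝓝 0)) (hδL : Tendsto (fun T => δ T * Real.log T) atTop atTop) :
    ∃ E : ℝ → Set ℝ, (∀ T, MeasurableSet (E T) ∧ E T ⊆ Set.Icc 0 T ∧ (k ≤ 2 → E T = ∅) ∧
      ∀ t ∈ E T, ∃ j : ℤ, (δ T) ^ (-(1 + k / 2)) < ‖zc (δ T) j t‖) ∧
      Tendsto (fun T => (volume (E T)).toReal / (T * (δ T) ^ (2 * k))) atTop (𝓝 0) ∧ GD k δ E := by
  rcases le_or_gt k 2 with h | h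
  · refine ⟨fun _ => ∅, fun T => ⟨MeasurableSet.empty, Set.empty_subset _, fun _ => rfl, fun t ht => ht.elim⟩, ?_, fun n a _ F hF hom => ?_⟩
    · simp
    · simp_rw [Set.sdiff_empty, fi_line]
      exact homog hk h hδ hδL a hF hom
  · obtain ⟨E, hE, hvol, hm⟩ := Pool.Agent.X111.HO.mainE hδ hδL (c := k / 2 - 1) (by linarith) (S := Sz) (K := {k})
      (Set.countable_range _) ⟨0, by simp⟩ (Set.countable_singleton k) (fun x hx => by rw [Set.mem_singleton_iff] at hx; rw [hx]; exact hk)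
      (fun x hx => by rw [Set.mem_singleton_iff] at hx; rw [hx]; exact Or.inr (by linarith))
    refine ⟨E, fun T => ⟨(hE T).1, (hE T).2.1, fun h2 => absurd h2 (not_le.mpr h), fun t ht => ?_⟩, ?_, fun n a ha F hF hom => ?_⟩
    · obtain ⟨a, ⟨j, rfl⟩, ha⟩ := (hE T).2.2 t ht
      refine ⟨j, ?_⟩
      rw [zc_norm]
      have e1 : (2 + (k / 2 - 1)) = 1 + k / 2 := by ring
      rw [e1] at ha
      exact ha
    · have e1 : 4 + 4 * (k / 2 - 1) = 2 * k := by ring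
      rw [e1] at hvol
      exact hvol
    · exact hm k rfl n a ha F hF hom

lemma la_Sz (N : ℕ) (j : Fin (2 * N + 1)) : la N j ∈ Sz := ⟨_, (la_int N j).symm⟩

section

variable {k : ℝ} {δ : ℝ → ℝ} {E : ℝ → Set ℝ}

/-- the share -/
theorem sh (hk : 0 < k) (hG : GD k δ E) (N : ℕ) :
    Tendsto (fun T => (2 * δ T) ^ (k ^ 2) / T * ∫ t in Set.Icc 0 T \ E T, Fs k (mid N) (fun j => zc (δ T) (la N j) t)) atTop (𝓝 (aF k * qN k N)) := by
  have h1 := hG (2 * N + 1) (la N) (la_Sz N) (Fs k (mid N)) (Fs_cont hk _) (fun c v => Fs_hom hk _ c v)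
  simp_rw [Fs_field] at h1
  exact h1

/-- the functional with a multiple of the power removed -/
theorem shm (hk : 0 < k) (hG : GD k δ E) (N : ℕ) (b : ℝ) :
    Tendsto (fun T => (2 * δ T) ^ (k ^ 2) / T * ∫ t in Set.Icc 0 T \ E T, (Fs k (mid N) (fun j => zc (δ T) (la N j) t) - b * ‖zc (δ T) 0 t‖ ^ (2 * k)))
      atTop (𝓝 (aF k * (qN k N - b))) := by
  have hc : Continuous fun v : Fin (2 * N + 1) → ℂ => ‖v (mid N)‖ ^ (2 * k) := (continuous_apply (mid N)).norm.rpow_const fun _ => Or.inr (by positivity)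
  have h1 := hG (2 * N + 1) (la N) (la_Sz N) (fun v => Fs k (mid N) v - b * ‖v (mid N)‖ ^ (2 * k)) ((Fs_cont hk _).sub (hc.const_mul b)) (fun c v => by
    rw [Fs_hom hk, norm_mul, Real.mul_rpow (norm_nonneg _) (norm_nonneg _)]
    ring)
  have e1 : ∀ ω, ‖fi k ω (Complex.I * ((la N (mid N) : ℝ) : ℂ))‖ ^ (2 * k) = 1 := by
    intro ω
    have := fi_vz k ω 0
    rw [vz_zero] at this
    rw [la_mid]
    simpa using this
  simp_rw [Fs_field, e1, la_mid] at h1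
  have e2 : ∫ ω, (1 / ∑ j ∈ Finset.Icc (-(N : ℤ)) N, vz k ω j - b * 1) ∂PG = qN k N - b := by
    rw [integral_sub (qN_int k N) (integrable_const _), integral_const, probReal_univ, one_smul, mul_one]
    rfl
  rw [e2] at h1
  exact h1

/-- the moment -/
theorem mo (hk : 0 < k) (hG : GD k δ E) :
    Tendsto (fun T => (2 * δ T) ^ (k ^ 2) / T * ∫ t in Set.Icc 0 T \ E T, ‖zc (δ T) 0 t‖ ^ (2 * k)) atTop (𝓝 (aF k)) := by
  have hc : Continuous fun v : Fin 1 → ℂ => ‖v 0‖ ^ (2 * k) := (continuous_apply 0).norm.rpow_const fun _ => Or.inr (by positivity)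
  have h1 := hG 1 (fun _ => 0) (fun _ => ⟨0, by simp⟩) (fun v => ‖v 0‖ ^ (2 * k)) hc (fun c v => by
    rw [norm_mul, Real.mul_rpow (norm_nonneg _) (norm_nonneg _)])
  have e1 : ∀ ω, ‖fi k ω (Complex.I * ((0 : ℝ) : ℂ))‖ ^ (2 * k) = 1 := by
    intro ω
    have := fi_vz k ω 0
    rw [vz_zero] at this
    simpa using this
  simp_rw [e1] at h1
  rw [integral_const, probReal_univ, one_smul, mul_one] at h1
  exact h1

/-- the peaks -/
def Pk (k b δ : ℝ) (N : ℕ) : Set ℝ := {t | b * ∑ j : Fin (2 * N + 1), ‖zc δ (la N j) t‖ ^ (2 * k) ≤ ‖zc δ 0 t‖ ^ (2 * k)}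

lemma Pk_meas (hk : 0 < k) {b d : ℝ} (hd : d < 1 / 2) (N : ℕ) : MeasurableSet (Pk k b d N) := by
  have h1 : ∀ a : ℝ, Continuous fun t => ‖zc d a t‖ ^ (2 * k) := fun a => (zc_cont hd a).norm.rpow_const fun _ => Or.inr (by positivity)
  exact (isClosed_le ((continuous_finsetSum _ fun j _ => h1 _).const_mul b) (h1 0)).measurableSet

lemma pow_int (hk : 0 < k) {d T : ℝ} (hd : d < 1 / 2) {D : Set ℝ} (hD : D ⊆ Set.Icc 0 T) : IntegrableOn (fun t => ‖zc d 0 t‖ ^ (2 * k)) D :=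
  (((zc_cont hd 0).norm.rpow_const fun _ => Or.inr (by positivity)).continuousOn.integrableOn_compact isCompact_Icc).mono_set hD

lemma Fs_int (hk : 0 < k) {d T : ℝ} (hd : d < 1 / 2) (N : ℕ) {D : Set ℝ} (hD : D ⊆ Set.Icc 0 T) :
    IntegrableOn (fun t => Fs k (mid N) (fun j => zc d (la N j) t)) D :=
  ((((Fs_cont hk (mid N)).comp (continuous_pi fun j => zc_cont hd (la N j)))).continuousOn.integrableOn_compact isCompact_Icc).mono_set hD

/-- the peaks carry a positive proportion, `k > 1` -/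
theorem pk_low (hk : 1 < k) (hδ : Tendsto δ atTop (𝓝 0)) (hδL : Tendsto (fun T => δ T * Real.log T) atTop atTop) (hG : GD k δ E)
    {c : ℝ} (hc0 : 0 < c) {N : ℕ} (hc : 4 * c ≤ qN k N) :
    ∀ᶠ T in atTop, c * aF k ≤ (2 * δ T) ^ (k ^ 2) / T * ∫ t in (Set.Icc 0 T \ E T) ∩ Pk k c (δ T) N, ‖zc (δ T) 0 t‖ ^ (2 * k) := by
  have hk0 : 0 < k := by linarith
  have ha := aF_pos hk0
  have h1 := shm hk0 hG N c
  have h2 : c * aF k < aF k * (qN k N - c) := by nlinarith [mul_pos hc0 ha]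
  filter_upwards [h1.eventually (lt_mem_nhds h2), pos_path hδL, hδ.eventually (gt_mem_nhds (show (0:ℝ) < 1 / 2 by norm_num)), eventually_gt_atTop 0]
    with T h3 h4 hd hT
  refine h3.le.trans ?_
  refine mul_le_mul_of_nonneg_left ?_ (by positivity)
  have hsub : Set.Icc 0 T \ E T ⊆ Set.Icc 0 T := Set.sdiff_subset
  have i1 := pow_int hk0 (T := T) hd hsub
  have i2 := Fs_int hk0 (T := T) hd N hsub
  rw [← setIntegral_indicator (Pk_meas hk0 hd N)]
  refine integral_mono (i2.sub (i1.const_mul c)) (i1.indicator (Pk_meas hk0 hd N)) fun t => ?_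
  show Fs k (mid N) (fun j => zc (δ T) (la N j) t) - c * ‖zc (δ T) 0 t‖ ^ (2 * k) ≤ (Pk k c (δ T) N).indicator (fun t => ‖zc (δ T) 0 t‖ ^ (2 * k)) t
  have hz : 0 ≤ ‖zc (δ T) 0 t‖ ^ (2 * k) := Real.rpow_nonneg (norm_nonneg _) _
  by_cases ht : t ∈ Pk k c (δ T) N
  · rw [Set.indicator_of_mem ht]
    have h5 := Fs_le k (mid N) (fun j => zc (δ T) (la N j) t)
    rw [la_mid] at h5
    nlinarith
  · rw [Set.indicator_of_notMem ht]
    have h6 : ‖zc (δ T) 0 t‖ ^ (2 * k) < c * ∑ j : Fin (2 * N + 1), ‖zc (δ T) (la N j) t‖ ^ (2 * k) := not_le.mp ht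
    have hS : 0 < ∑ j : Fin (2 * N + 1), ‖zc (δ T) (la N j) t‖ ^ (2 * k) := by
      by_contra hcon
      nlinarith
    unfold Fs
    simp only [la_mid]
    have h7 : ‖zc (δ T) 0 t‖ ^ (2 * k) / ∑ j : Fin (2 * N + 1), ‖zc (δ T) (la N j) t‖ ^ (2 * k) ≤ c := by
      rw [div_le_iff₀ hS]
      exact h6.le
    nlinarith [mul_le_mul_of_nonneg_left h7 hz]

/-- the peaks carry a small proportion, `k < 1` -/
theorem pk_up (hk : 0 < k) (hδ : Tendsto δ atTop (𝓝 0)) (hδL : Tendsto (fun T => δ T * Real.log T) atTop atTop) (hG : GD k δ E)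
    {b x : ℝ} (hb : 0 < b) {N : ℕ} (hx : qN k N < x) :
    ∀ᶠ T in atTop, (2 * δ T) ^ (k ^ 2) / T * ∫ t in (Set.Icc 0 T \ E T) ∩ Pk k b (δ T) N, ‖zc (δ T) 0 t‖ ^ (2 * k) ≤ x / b * aF k := by
  have ha := aF_pos hk
  have h1 := sh hk hG N
  have h2 : aF k * qN k N < aF k * x := mul_lt_mul_of_pos_left hx ha
  filter_upwards [h1.eventually (gt_mem_nhds h2), pos_path hδL, hδ.eventually (gt_mem_nhds (show (0:ℝ) < 1 / 2 by norm_num)), eventually_gt_atTop 0]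
    with T h3 h4 hd hT
  have hsub : Set.Icc 0 T \ E T ⊆ Set.Icc 0 T := Set.sdiff_subset
  have i1 := pow_int hk (T := T) hd hsub
  have i2 := Fs_int hk (T := T) hd N hsub
  have h5 : b * ∫ t in (Set.Icc 0 T \ E T) ∩ Pk k b (δ T) N, ‖zc (δ T) 0 t‖ ^ (2 * k) ≤
      ∫ t in Set.Icc 0 T \ E T, Fs k (mid N) (fun j => zc (δ T) (la N j) t) := by
    rw [← setIntegral_indicator (Pk_meas hk hd N), ← integral_const_mul]
    refine integral_mono ((i1.indicator (Pk_meas hk hd N)).const_mul b) i2 fun t => ?_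
    show b * (Pk k b (δ T) N).indicator (fun t => ‖zc (δ T) 0 t‖ ^ (2 * k)) t ≤ Fs k (mid N) (fun j => zc (δ T) (la N j) t)
    have hz : 0 ≤ ‖zc (δ T) 0 t‖ ^ (2 * k) := Real.rpow_nonneg (norm_nonneg _) _
    by_cases ht : t ∈ Pk k b (δ T) N
    · rw [Set.indicator_of_mem ht]
      have h6 : b * ∑ j : Fin (2 * N + 1), ‖zc (δ T) (la N j) t‖ ^ (2 * k) ≤ ‖zc (δ T) 0 t‖ ^ (2 * k) := ht
      have h7 : ‖zc (δ T) 0 t‖ ^ (2 * k) ≤ ∑ j : Fin (2 * N + 1), ‖zc (δ T) (la N j) t‖ ^ (2 * k) := by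
        have := Finset.single_le_sum (f := fun j : Fin (2 * N + 1) => ‖zc (δ T) (la N j) t‖ ^ (2 * k))
          (fun j _ => Real.rpow_nonneg (norm_nonneg _) _) (Finset.mem_univ (mid N))
        rwa [la_mid] at this
      rcases eq_or_lt_of_le hz with h0 | h0
      · rw [← h0, mul_zero]
        exact Fs_nn _ _ _
      · have hS : 0 < ∑ j : Fin (2 * N + 1), ‖zc (δ T) (la N j) t‖ ^ (2 * k) := lt_of_lt_of_le h0 h7
        unfold Fs
        simp only [la_mid]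
        rw [mul_comm b]
        refine mul_le_mul_of_nonneg_left ?_ hz
        rw [le_div_iff₀ hS]
        exact h6
    · rw [Set.indicator_of_notMem ht, mul_zero]
      exact Fs_nn _ _ _
  have hA : 0 ≤ (2 * δ T) ^ (k ^ 2) / T := by positivity
  have h6 := mul_le_mul_of_nonneg_left h5 hA
  have e9 : x / b * aF k = x * aF k / b := by ring
  rw [e9, le_div_iff₀ hb]
  calc (2 * δ T) ^ (k ^ 2) / T * (∫ t in (Set.Icc 0 T \ E T) ∩ Pk k b (δ T) N, ‖zc (δ T) 0 t‖ ^ (2 * k)) * b =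
      (2 * δ T) ^ (k ^ 2) / T * (b * ∫ t in (Set.Icc 0 T \ E T) ∩ Pk k b (δ T) N, ‖zc (δ T) 0 t‖ ^ (2 * k)) := by ring
    _ ≤ _ := h6
    _ ≤ x * aF k := by
        rw [mul_comm x]
        exact h3.le

end

end Pool.Agent.X111.LP
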