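import Pool.Agent.X111.HO.Low
import Pool.Agent.X111.FZ.Fin

set_option autoImplicit false
set_option linter.unusedSectionVars false

/-! The share of a point in a finite sum of powers: the functional, and its mean for the limit field. -/

namespace Pool.Agent.X111.LP

open MeasureTheory ProbabilityTheory Filter Topology
open Pool.Agent.X111.FL
open Pool.Agent.X111.FZ

/-- the functional -/
noncomputable def Fs {n : ℕ} (k : ℝ) (i0 : Fin n) (v : Fin n → ℂ) : ℝ := ‖v i0‖ ^ (2 * k) * (‖v i0‖ ^ (2 * k) / ∑ j, ‖v j‖ ^ (2 * k))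

lemma Fs_share {n : ℕ} (k : ℝ) (i0 : Fin n) (v : Fin n → ℂ) : 0 ≤ ‖v i0‖ ^ (2 * k) / ∑ j, ‖v j‖ ^ (2 * k) ∧
    ‖v i0‖ ^ (2 * k) / ∑ j, ‖v j‖ ^ (2 * k) ≤ 1 := by
  have h0 : ∀ j, 0 ≤ ‖v j‖ ^ (2 * k) := fun j => Real.rpow_nonneg (norm_nonneg _) _
  refine ⟨div_nonneg (h0 _) (Finset.sum_nonneg fun j _ => h0 j), ?_⟩
  refine div_le_one_of_le₀ ?_ (Finset.sum_nonneg fun j _ => h0 j)
  exact Finset.single_le_sum (f := fun j => ‖v j‖ ^ (2 * k)) (fun j _ => h0 j) (Finset.mem_univ i0)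

lemma Fs_nn {n : ℕ} (k : ℝ) (i0 : Fin n) (v : Fin n → ℂ) : 0 ≤ Fs k i0 v :=
  mul_nonneg (Real.rpow_nonneg (norm_nonneg _) _) (Fs_share k i0 v).1

lemma Fs_le {n : ℕ} (k : ℝ) (i0 : Fin n) (v : Fin n → ℂ) : Fs k i0 v ≤ ‖v i0‖ ^ (2 * k) :=
  mul_le_of_le_one_right (Real.rpow_nonneg (norm_nonneg _) _) (Fs_share k i0 v).2

lemma Fs_hom {n : ℕ} {k : ℝ} (hk : 0 < k) (i0 : Fin n) (c : ℂ) (v : Fin n → ℂ) : Fs k i0 (fun j => c * v j) = ‖c‖ ^ (2 * k) * Fs k i0 v := by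
  unfold Fs
  have e1 : ∀ j, ‖c * v j‖ ^ (2 * k) = ‖c‖ ^ (2 * k) * ‖v j‖ ^ (2 * k) := fun j => by
    rw [norm_mul, Real.mul_rpow (norm_nonneg _) (norm_nonneg _)]
  simp_rw [e1]
  rw [← Finset.mul_sum]
  rcases eq_or_ne c 0 with h | h
  · rw [h, norm_zero, Real.zero_rpow (by positivity)]
    simp
  · have hc : ‖c‖ ^ (2 * k) ≠ 0 := (Real.rpow_pos_of_pos (norm_pos_iff.mpr h) _).ne'
    rw [mul_div_mul_left _ _ hc]
    ring

lemma Fs_cont {n : ℕ} {k : ℝ} (hk : 0 < k) (i0 : Fin n) : Continuous (Fs k i0) := by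
  have hc : ∀ j : Fin n, Continuous fun v : Fin n → ℂ => ‖v j‖ ^ (2 * k) := fun j =>
    (continuous_apply j).norm.rpow_const fun _ => Or.inr (by positivity)
  rw [continuous_iff_continuousAt]
  intro v
  rcases eq_or_ne v 0 with h | h
  · have h0 : Fs k i0 v = 0 := by
      unfold Fs
      rw [h, Pi.zero_apply, norm_zero, Real.zero_rpow (by positivity), zero_mul]
    unfold ContinuousAt
    rw [h0]
    refine squeeze_zero (fun w => Fs_nn k i0 w) (fun w => Fs_le k i0 w) ?_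
    have h1 := (hc i0).tendsto v
    rw [h, Pi.zero_apply, norm_zero, Real.zero_rpow (by positivity)] at h1
    rw [h]
    exact h1
  · have hS : ∑ j, ‖v j‖ ^ (2 * k) ≠ 0 := by
      intro hs
      apply h
      funext j
      have h1 := (Finset.sum_eq_zero_iff_of_nonneg fun j _ => Real.rpow_nonneg (norm_nonneg (v j)) (2 * k)).mp hs j (Finset.mem_univ j)
      rw [Real.rpow_eq_zero (norm_nonneg _) (by positivity)] at h1
      rw [Pi.zero_apply]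
      exact norm_eq_zero.mp h1
    unfold Fs
    exact (hc i0).continuousAt.mul ((hc i0).continuousAt.div (continuous_finsetSum _ fun j _ => hc j).continuousAt hS)

/-- the lattice -/
def la (N : ℕ) (j : Fin (2 * N + 1)) : ℝ := ((j : ℕ) : ℝ) - N

/-- the middle of the lattice -/
def mid (N : ℕ) : Fin (2 * N + 1) := ⟨N, by omega⟩

lemma la_mid (N : ℕ) : la N (mid N) = 0 := by
  unfold la mid
  simp

lemma la_int (N : ℕ) (j : Fin (2 * N + 1)) : la N j = (((j : ℕ) : ℤ) - (N : ℤ) : ℤ) := by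
  unfold la
  push_cast
  rfl

/-- the sums over the lattice -/
lemma la_sum (N : ℕ) (g : ℤ → ℝ) : ∑ j : Fin (2 * N + 1), g (((j : ℕ) : ℤ) - (N : ℤ)) = ∑ j ∈ Finset.Icc (-(N : ℤ)) N, g j := by
  rw [Fin.sum_univ_eq_sum_range (fun j : ℕ => g ((j : ℤ) - (N : ℤ))) (2 * N + 1)]
  refine Finset.sum_bij (fun j _ => (j : ℤ) - (N : ℤ)) (fun j hj => ?_) (fun i _ j _ h => ?_) (fun l hl => ?_) (fun j _ => rfl)
  · rw [Finset.mem_range] at hj
    rw [Finset.mem_Icc]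
    omega
  · simpa using h
  · rw [Finset.mem_Icc] at hl
    refine ⟨(l + N).toNat, ?_, ?_⟩
    · rw [Finset.mem_range]
      omega
    · rw [Int.toNat_of_nonneg (by omega)]
      ring

/-- the mean share -/
noncomputable def qN (k : ℝ) (N : ℕ) : ℝ := ∫ ω, 1 / ∑ j ∈ Finset.Icc (-(N : ℤ)) N, vz k ω j ∂PG

lemma S_ge (k : ℝ) (N : ℕ) (ω : ℕ → ℝ × ℝ) : 1 ≤ ∑ j ∈ Finset.Icc (-(N : ℤ)) N, vz k ω j := by
  have := Finset.single_le_sum (f := fun j => vz k ω j) (fun j _ => (vz_pos k ω j).le) (show (0:ℤ) ∈ Finset.Icc (-(N : ℤ)) N by simp)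
  simpa [vz_zero] using this

lemma qN_int (k : ℝ) (N : ℕ) : Integrable (fun ω => 1 / ∑ j ∈ Finset.Icc (-(N : ℤ)) N, vz k ω j) PG := by
  have hSm : AEMeasurable (fun ω => 1 / ∑ j ∈ Finset.Icc (-(N : ℤ)) N, vz k ω j) PG :=
    (Finset.aemeasurable_fun_sum _ fun j _ => vz_meas k j).const_div 1
  refine (integrable_const (1:ℝ)).mono' hSm.aestronglyMeasurable (Eventually.of_forall fun ω => ?_)
  have hSp := S_ge k N ω
  rw [Real.norm_of_nonneg (by positivity), div_le_one (by linarith)]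
  exact hSp

lemma qN_lint (k : ℝ) (N : ℕ) : ENNReal.ofReal (qN k N) = ∫⁻ ω, ENNReal.ofReal (1 / ∑ j ∈ Finset.Icc (-(N : ℤ)) N, vz k ω j) ∂PG := by
  unfold qN
  refine ofReal_integral_eq_lintegral_ofReal (qN_int k N) (Eventually.of_forall fun ω => ?_)
  show 0 ≤ 1 / ∑ j ∈ Finset.Icc (-(N : ℤ)) N, vz k ω j
  have hSp := S_ge k N ω
  positivity

lemma qN_nn (k : ℝ) (N : ℕ) : 0 ≤ qN k N := by
  unfold qN
  refine integral_nonneg fun ω => ?_
  have hSp := S_ge k N ω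
  show 0 ≤ 1 / ∑ j ∈ Finset.Icc (-(N : ℤ)) N, vz k ω j
  positivity

/-- the lower bound, `k > 1` -/
lemma qN_low {k : ℝ} (hk : 1 < k) : ∃ c : ℝ, 0 < c ∧ ∀ N : ℕ, c ≤ qN k N := by
  obtain ⟨c, hc0, hc⟩ := inv_sum hk
  refine ⟨c, hc0, fun N => ?_⟩
  have h1 := hc N
  rw [← qN_lint] at h1
  exact (ENNReal.ofReal_le_ofReal_iff (qN_nn k N)).mp h1

lemma qN_anti (k : ℝ) {M N : ℕ} (h : M ≤ N) : qN k N ≤ qN k M := by
  unfold qN
  refine integral_mono (qN_int k N) (qN_int k M) fun ω => ?_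
  have h1 := S_ge k M ω
  refine one_div_le_one_div_of_le (by linarith) ?_
  refine Finset.sum_le_sum_of_subset_of_nonneg ?_ fun j _ _ => (vz_pos k ω j).le
  refine Finset.Icc_subset_Icc ?_ ?_
  · have : (M : ℤ) ≤ N := by exact_mod_cast h
    linarith
  · exact_mod_cast h

/-- the values of the field at the lattice -/
lemma fi_vz (k : ℝ) (ω : ℕ → ℝ × ℝ) (j : ℤ) : ‖fi k ω (Complex.I * (((j : ℤ) : ℝ) : ℂ))‖ ^ (2 * k) = vz k ω j := by
  unfold vz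
  rw [exp_lz k ω (il_re _), ← Real.exp_mul]
  congr 1
  ring

lemma Fs_field (k : ℝ) (N : ℕ) (ω : ℕ → ℝ × ℝ) :
    Fs k (mid N) (fun j => fi k ω (Complex.I * ((la N j : ℝ) : ℂ))) = 1 / ∑ j ∈ Finset.Icc (-(N : ℤ)) N, vz k ω j := by
  unfold Fs
  have e1 : ∀ j : Fin (2 * N + 1), ‖fi k ω (Complex.I * ((la N j : ℝ) : ℂ))‖ ^ (2 * k) = vz k ω (((j : ℕ) : ℤ) - (N : ℤ)) := by
    intro j
    rw [la_int]
    exact fi_vz k ω _
  simp_rw [e1]
  rw [la_sum N fun j => vz k ω j]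
  have e2 : (((mid N : Fin (2 * N + 1)) : ℕ) : ℤ) - (N : ℤ) = 0 := by
    unfold mid
    simp
  rw [e2, vz_zero, one_mul]

end Pool.Agent.X111.LP
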