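import Pool.Agent.X111.LP.Fun

set_option autoImplicit false
set_option linter.unusedSectionVars false

/-! The mean share and the mean maximum. -/

namespace Pool.Agent.X111.LP

open MeasureTheory ProbabilityTheory Filter Topology
open Pool.Agent.X111.FL
open Pool.Agent.X111.FZ

/-- the mean share is at most the mean maximum divided by the number of points -/
theorem share_max (k : ℝ) (N : ℕ) : ENNReal.ofReal ((2 * N + 1) * qN k (2 * N)) ≤ MX k N := by
  have h1 : ∀ ω, ∑ m ∈ Finset.Icc (-(N : ℤ)) N, ENNReal.ofReal (vz k ω m ^ 2 / ∑ j ∈ Finset.Icc (-((2 * N : ℕ) : ℤ)) ((2 * N : ℕ) : ℤ), vz k ω (m + j)) ≤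
      ⨆ j : Iz N, ENNReal.ofReal (vz k ω j) := by
    intro ω
    obtain ⟨S, hS⟩ : ∃ S : ℝ, S = ∑ l ∈ Finset.Icc (-(N : ℤ)) N, vz k ω l := ⟨_, rfl⟩
    have hSp : 0 < S := by rw [hS]; exact Finset.sum_pos (fun j _ => vz_pos k ω j) ⟨0, by simp⟩
    obtain ⟨j0, hj0, hmax⟩ := Finset.exists_max_image (Finset.Icc (-(N : ℤ)) N) (fun j => vz k ω j) ⟨0, by simp⟩
    rw [← ENNReal.ofReal_sum_of_nonneg fun m _ => div_nonneg (sq_nonneg _) (Finset.sum_nonneg fun j _ => (vz_pos k ω _).le)]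
    refine le_trans ?_ (le_iSup (fun j : Iz N => ENNReal.ofReal (vz k ω j)) ⟨j0, hj0⟩)
    refine ENNReal.ofReal_le_ofReal ?_
    have h2 : ∀ m ∈ Finset.Icc (-(N : ℤ)) N, vz k ω m ^ 2 / ∑ j ∈ Finset.Icc (-((2 * N : ℕ) : ℤ)) ((2 * N : ℕ) : ℤ), vz k ω (m + j) ≤ vz k ω m * vz k ω j0 / S := by
      intro m hm
      have h3 : S ≤ ∑ j ∈ Finset.Icc (-((2 * N : ℕ) : ℤ)) ((2 * N : ℕ) : ℤ), vz k ω (m + j) := by
        have h4 : ∑ j ∈ Finset.Icc (-((2 * N : ℕ) : ℤ)) ((2 * N : ℕ) : ℤ), vz k ω (m + j) =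
            ∑ l ∈ (Finset.Icc (-((2 * N : ℕ) : ℤ)) ((2 * N : ℕ) : ℤ)).image (fun j => m + j), vz k ω l := by
          rw [Finset.sum_image]
          intro x _ y _ hxy
          simpa using hxy
        rw [hS, h4]
        refine Finset.sum_le_sum_of_subset_of_nonneg ?_ fun l _ _ => (vz_pos k ω l).le
        intro l hl
        rw [Finset.mem_image]
        rw [Finset.mem_Icc] at hl hm
        refine ⟨l - m, ?_, by ring⟩
        rw [Finset.mem_Icc]
        push_cast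
        omega
      have h5 := hmax m hm
      have h6 := vz_pos k ω m
      calc vz k ω m ^ 2 / ∑ j ∈ Finset.Icc (-((2 * N : ℕ) : ℤ)) ((2 * N : ℕ) : ℤ), vz k ω (m + j) ≤ vz k ω m ^ 2 / S :=
            div_le_div_of_nonneg_left (sq_nonneg _) hSp h3
        _ ≤ vz k ω m * vz k ω j0 / S := by
            refine div_le_div_of_nonneg_right ?_ hSp.le
            rw [sq]
            exact mul_le_mul_of_nonneg_left h5 h6.le
    refine (Finset.sum_le_sum h2).trans (le_of_eq ?_)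
    rw [← Finset.sum_div, ← Finset.sum_mul, ← hS]
    field_simp
  unfold MX
  refine le_trans ?_ (lintegral_mono h1)
  rw [lintegral_finsetSum']
  · simp_rw [shift_ratio]
    rw [Finset.sum_const, nsmul_eq_mul, Int.card_Icc, ← qN_lint]
    have e1 : (((N : ℤ) + 1 - (-(N : ℤ))).toNat) = 2 * N + 1 := by omega
    rw [e1, ENNReal.ofReal_mul (by positivity)]
    refine mul_le_mul' (le_of_eq ?_) le_rfl
    rw [← ENNReal.ofReal_natCast]
    push_cast
    rfl
  · intro m _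
    refine ENNReal.measurable_ofReal.comp_aemeasurable ?_
    exact ((vz_meas k m).pow_const 2).div (Finset.aemeasurable_fun_sum _ fun j _ => vz_meas k _)

/-- the upper bound, `k ≤ 1` -/
theorem qN_up {k : ℝ} (hk : 0 < k) (hk1 : k ≤ 1) : ∃ C : ℝ, 0 < C ∧ ∀ N : ℕ, qN k N ≤ C * (1 + (N : ℝ)) ^ (-((1 - k) ^ 2)) := by
  obtain ⟨C, hC0, hC⟩ := up_one hk hk1
  have key : ∀ M : ℕ, qN k (2 * M) ≤ C * (1 + (M : ℝ)) ^ (-((1 - k) ^ 2)) := by
    intro M
    have hM : (0:ℝ) < 1 + M := by positivity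
    have h0 := MX_LM (k := k) (H := M) hk (Nat.cast_nonneg M)
    rw [Nat.floor_natCast] at h0
    have h1 := (share_max k M).trans h0
    have h2 := (ENNReal.ofReal_le_ofReal_iff (LM_nonneg k M)).mp h1
    have h3 := h2.trans (hC M (Nat.cast_nonneg M))
    have h4 : (1 + (M : ℝ)) * qN k (2 * M) ≤ (2 * M + 1) * qN k (2 * M) := by
      refine mul_le_mul_of_nonneg_right ?_ (qN_nn _ _)
      have : (0:ℝ) ≤ M := Nat.cast_nonneg M
      linarith
    have h5 : (1 + (M : ℝ)) ^ (2 * k - k ^ 2) = (1 + (M : ℝ)) * (1 + (M : ℝ)) ^ (-((1 - k) ^ 2)) := by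
      rw [← Real.rpow_one_add' hM.le (by nlinarith)]
      congr 1
      ring
    rw [h5] at h3
    have h6 : (1 + (M : ℝ)) * qN k (2 * M) ≤ (1 + (M : ℝ)) * (C * (1 + (M : ℝ)) ^ (-((1 - k) ^ 2))) := by
      refine (h4.trans h3).trans (le_of_eq ?_)
      ring
    exact le_of_mul_le_mul_left h6 hM
  refine ⟨C * 2 ^ ((1 - k) ^ 2), by positivity, fun N => ?_⟩
  have h1 := (qN_anti k (show 2 * (N / 2) ≤ N by omega)).trans (key (N / 2))
  refine h1.trans ?_
  rw [mul_assoc]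
  refine mul_le_mul_of_nonneg_left ?_ hC0.le
  have h2 : (1 + (N : ℝ)) / 2 ≤ 1 + ((N / 2 : ℕ) : ℝ) := by
    have h3 : N + 1 ≤ 2 * (1 + N / 2) := by omega
    have h4 : ((N + 1 : ℕ) : ℝ) ≤ ((2 * (1 + N / 2) : ℕ) : ℝ) := by exact_mod_cast h3
    push_cast at h4
    push_cast
    linarith
  refine (Real.rpow_le_rpow_of_nonpos (by positivity) h2 (by nlinarith [sq_nonneg (1 - k)])).trans (le_of_eq ?_)
  rw [Real.div_rpow (by positivity) (by norm_num), Real.rpow_neg (by norm_num : (0:ℝ) ≤ 2)]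
  field_simp

end Pool.Agent.X111.LP
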